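import Pool.Agent.MPV.Tri

/-!
# The bound for the expected number of queries
-/

set_option autoImplicit false

namespace Pool.Agent.MPV

section count

variable {V : Type} [Fintype V] [DecidableEq V]

open Classical in
/-- Number of colourings that are constant equal to `c` on `S`. -/
theorem card_const (S : Finset V) (c : Bool) :
    (Finset.univ.filter fun ω : V → Bool => ∀ z ∈ S, ω z = c).card * 2 ^ S.card = 2 ^ Fintype.card V := by
  have h1 : (Finset.univ.filter fun ω : V → Bool => ∀ z ∈ S, ω z = c) =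
      Fintype.piFinset (fun z => if z ∈ S then ({c} : Finset Bool) else Finset.univ) := by
    ext ω
    rw [Finset.mem_filter, Fintype.mem_piFinset]
    simp only [Finset.mem_univ, true_and]
    refine forall_congr' fun z => ?_
    by_cases hz : z ∈ S
    · simp [hz]
    · simp [hz]
  rw [h1, Fintype.card_piFinset]
  have h2 : ∀ z, (if z ∈ S then ({c} : Finset Bool) else Finset.univ).card = if z ∈ S then 1 else 2 := by
    intro z; split_ifs <;> simp
  simp only [h2]
  have h4 : (2 : ℕ) ^ S.card = ∏ z : V, if z ∈ S then 2 else 1 := by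
    rw [Finset.prod_ite_mem]
    simp
  rw [h4, ← Finset.prod_mul_distrib]
  have h3 : ∀ z : V, (if z ∈ S then 1 else 2) * (if z ∈ S then 2 else 1) = 2 := by
    intro z; split_ifs <;> rfl
  simp only [h3]
  rw [Finset.prod_const, Finset.card_univ]

end count

/-- Index set of the disjoint triangles. -/
abbrev Idx (n : ℕ) := Bool × Fin ((n - 2) / 5) × Fin (n / 4)

/-- Position of the triangle. -/
def posA {n : ℕ} (t : Idx n) : ℕ := if t.1 then 1 + 5 * t.2.1 else 2 + 5 * t.2.1

/-- Position of the triangle. -/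
def posB {n : ℕ} (t : Idx n) : ℕ := 4 * t.2.2

theorem pos_bounds {n : ℕ} (t : Idx n) : 1 ≤ posA t ∧ posA t + 4 < n ∧ posB t + 3 < n := by
  obtain ⟨T, p, q⟩ := t
  have hp := p.2
  have hq := q.2
  have h1 : 5 * ((n - 2) / 5) ≤ n - 2 := Nat.mul_div_le _ _
  have h2 : 4 * (n / 4) ≤ n := Nat.mul_div_le _ _
  cases T <;> simp only [posA, posB, if_true, if_false, Bool.false_eq_true] <;> refine ⟨by omega, by omega, by omega⟩

theorem idx_disj {n : ℕ} {t t' : Idx n} {z : Site n} (h : inTri t.1 (posA t) (posB t) z)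
    (h' : inTri t'.1 (posA t') (posB t') z) : t = t' := by
  obtain ⟨T, p, q⟩ := t
  obtain ⟨T', p', q'⟩ := t'
  obtain ⟨h1, h2, h3, h4, h5⟩ := h
  obtain ⟨g1, g2, g3, g4, g5⟩ := h'
  simp only [posA, posB] at h1 h2 h3 h4 h5 g1 g2 g3 g4 g5
  have hq : q = q' := by apply Fin.ext; omega
  subst hq
  have hp : p = p' := by
    apply Fin.ext
    cases T <;> cases T' <;> simp only [if_true, if_false, Bool.false_eq_true] at h1 h2 g1 g2 <;> omega
  subst hp
  cases T <;> cases T' <;> simp only [if_true, if_false, Bool.false_eq_true] at h1 h2 h5 g1 g2 g5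
  · rfl
  · exfalso; omega
  · exfalso; omega
  · rfl

open Classical in
/-- The monochromatic triangles of the family. -/
noncomputable def mono (n : ℕ) (ω : Site n → Bool) (c : Bool) : Finset (Idx n) :=
  Finset.univ.filter fun t => ∀ z, inTri t.1 (posA t) (posB t) z → ω z = c

theorem mono_disj {n : ℕ} (ω : Site n → Bool) : Disjoint (mono n ω true) (mono n ω false) := by
  classical
  rw [Finset.disjoint_left]
  intro t h1 h2
  have h1 := (Finset.mem_filter.1 h1).2
  have h2 := (Finset.mem_filter.1 h2).2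
  obtain ⟨b1, b2, b3⟩ := pos_bounds t
  have hne : (triF n t.1 (posA t) (posB t)).Nonempty := by
    rw [← Finset.card_pos, card_triF (by omega) b3]; norm_num
  obtain ⟨z, hz⟩ := hne
  rw [mem_triF] at hz
  have := h1 z hz
  rw [h2 z hz] at this
  exact absurd this (by decide)

/-- Pathwise bound. -/
theorem path_bound {n : ℕ} {τ : Hist (Site n) → Site n} (hτ : MostPivotal cross τ) (x₁ : Site n) (ω : Site n → Bool) :
    Nq cross τ x₁ ω + ((mono n ω true).card + (mono n ω false).card) ≤ n ^ 2 := by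
  classical
  have hch : ∀ t : Idx n, ∃ z : Site n, t ∈ mono n ω true ∪ mono n ω false →
      inTri t.1 (posA t) (posB t) z ∧ z ∉ known (run τ x₁ ω (Nq cross τ x₁ ω)) := by
    intro t
    by_cases ht : t ∈ mono n ω true ∪ mono n ω false
    · obtain ⟨b1, b2, b3⟩ := pos_bounds t
      rcases Finset.mem_union.1 ht with h | h
      · obtain ⟨z, hz⟩ := noTri hτ x₁ ω b1 b2 b3 t.1 true (Finset.mem_filter.1 h).2
        exact ⟨z, fun _ => hz⟩
      · obtain ⟨z, hz⟩ := noTri hτ x₁ ω b1 b2 b3 t.1 false (Finset.mem_filter.1 h).2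
        exact ⟨z, fun _ => hz⟩
    · exact ⟨x₁, fun h => absurd h ht⟩
  choose g hg using hch
  have hinj : Set.InjOn g (mono n ω true ∪ mono n ω false : Finset (Idx n)) := by
    intro t ht t' ht' he
    have h1 := (hg t ht).1
    have h2 := (hg t' ht').1
    rw [← he] at h2
    exact idx_disj h1 h2
  have hsub : (mono n ω true ∪ mono n ω false).image g ⊆ (known (run τ x₁ ω (Nq cross τ x₁ ω)))ᶜ := by
    intro z hz
    obtain ⟨t, ht, rfl⟩ := Finset.mem_image.1 hz
    rw [Finset.mem_compl]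
    exact (hg t ht).2
  have h1 := Finset.card_le_card hsub
  rw [Finset.card_image_of_injOn hinj, Finset.card_union_of_disjoint (mono_disj ω), Finset.card_compl,
    card_known_Nq hτ x₁ ω] at h1
  have h2 : Nq cross τ x₁ ω ≤ Fintype.card (Site n) := by
    rw [← card_known_Nq hτ x₁ ω]; exact Finset.card_le_univ _
  have h3 : Fintype.card (Site n) = n ^ 2 := by
    rw [Fintype.card_prod, Fintype.card_fin]; ring
  omega

theorem sum_mono {n : ℕ} (c : Bool) :
    (∑ ω : Site n → Bool, (mono n ω c).card) * 1024 = ((n - 2) / 5) * (n / 4) * 2 * 2 ^ (n ^ 2) := by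
  classical
  have h3 : Fintype.card (Site n) = n ^ 2 := by
    rw [Fintype.card_prod, Fintype.card_fin]; ring
  have h1 : ∑ ω : Site n → Bool, (mono n ω c).card =
      ∑ t : Idx n, (Finset.univ.filter fun ω : Site n → Bool => ∀ z ∈ triF n t.1 (posA t) (posB t), ω z = c).card := by
    have e1 : ∀ ω : Site n → Bool, (mono n ω c).card =
        ∑ t : Idx n, if ∀ z, inTri t.1 (posA t) (posB t) z → ω z = c then 1 else 0 := by
      intro ω
      rw [← Finset.card_filter]
      rfl
    have e2 : ∀ t : Idx n, (Finset.univ.filter fun ω : Site n → Bool => ∀ z ∈ triF n t.1 (posA t) (posB t), ω z = c).card =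
        ∑ ω : Site n → Bool, if ∀ z, inTri t.1 (posA t) (posB t) z → ω z = c then 1 else 0 := by
      intro t
      rw [← Finset.card_filter]
      congr 1
      ext ω
      simp only [Finset.mem_filter, Finset.mem_univ, true_and, mem_triF]
    simp only [e1, e2]
    rw [Finset.sum_comm]
  rw [h1, Finset.sum_mul]
  have h2 : ∀ t : Idx n, (Finset.univ.filter fun ω : Site n → Bool => ∀ z ∈ triF n t.1 (posA t) (posB t), ω z = c).card *
      1024 = 2 ^ (n ^ 2) := by
    intro t
    obtain ⟨b1, b2, b3⟩ := pos_bounds t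
    have := card_const (triF n t.1 (posA t) (posB t)) c
    rw [card_triF (by omega) b3, h3] at this
    rw [← this]
    norm_num
  rw [Finset.sum_congr rfl fun t _ => h2 t, Finset.sum_const, Finset.card_univ, Fintype.card_prod, Fintype.card_prod,
    Fintype.card_bool, Fintype.card_fin, Fintype.card_fin, smul_eq_mul]
  ring

theorem sum_bound {n : ℕ} {τ : Hist (Site n) → Site n} (hτ : MostPivotal cross τ) (x₁ : Site n) :
    (∑ ω : Site n → Bool, (Nq cross τ x₁ ω : ℝ)) / 2 ^ Fintype.card (Site n) ≤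
      (n : ℝ) ^ 2 - (((n - 2) / 5 : ℕ) : ℝ) * ((n / 4 : ℕ) : ℝ) / 256 := by
  classical
  have h3 : Fintype.card (Site n) = n ^ 2 := by
    rw [Fintype.card_prod, Fintype.card_fin]; ring
  have h1 : ∑ ω : Site n → Bool, (Nq cross τ x₁ ω + ((mono n ω true).card + (mono n ω false).card)) ≤
      ∑ ω : Site n → Bool, n ^ 2 := Finset.sum_le_sum fun ω _ => path_bound hτ x₁ ω
  rw [Finset.sum_add_distrib, Finset.sum_add_distrib, Finset.sum_const, Finset.card_univ, Fintype.card_fun,
    Fintype.card_bool, h3, smul_eq_mul] at h1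
  have h2 := sum_mono (n := n) true
  have h4 := sum_mono (n := n) false
  have h1' : (∑ ω : Site n → Bool, (Nq cross τ x₁ ω : ℝ)) +
      ((∑ ω : Site n → Bool, (mono n ω true).card : ℕ) + (∑ ω : Site n → Bool, (mono n ω false).card : ℕ) : ℝ) ≤
      2 ^ (n ^ 2) * (n : ℝ) ^ 2 := by
    have := (Nat.cast_le (α := ℝ)).2 h1
    push_cast at this ⊢
    linarith
  have h2' : ((∑ ω : Site n → Bool, (mono n ω true).card : ℕ) : ℝ) * 1024 =
      (((n - 2) / 5 : ℕ) : ℝ) * ((n / 4 : ℕ) : ℝ) * 2 * 2 ^ (n ^ 2) := by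
    have := congrArg (fun k : ℕ => (k : ℝ)) h2
    push_cast at this ⊢
    linarith
  have h4' : ((∑ ω : Site n → Bool, (mono n ω false).card : ℕ) : ℝ) * 1024 =
      (((n - 2) / 5 : ℕ) : ℝ) * ((n / 4 : ℕ) : ℝ) * 2 * 2 ^ (n ^ 2) := by
    have := congrArg (fun k : ℕ => (k : ℝ)) h4
    push_cast at this ⊢
    linarith
  rw [h3, div_le_iff₀ (by positivity)]
  set A : ℝ := (((n - 2) / 5 : ℕ) : ℝ)
  set B : ℝ := ((n / 4 : ℕ) : ℝ)
  set P : ℝ := (2 : ℝ) ^ (n ^ 2)
  have e : ((n : ℝ) ^ 2 - A * B / 256) * P = P * (n : ℝ) ^ 2 - (A * B * 2 * P / 1024 + A * B * 2 * P / 1024) := by ring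
  rw [e]
  linarith

theorem expN_bound {n : ℕ} {μ : Site n → ℝ} (hμ : ∀ x, 0 ≤ μ x) (hμ1 : ∑ x, μ x = 1)
    {τ : Hist (Site n) → Site n} (hτ : MostPivotal cross τ) :
    expN cross μ τ ≤ (n : ℝ) ^ 2 - (((n - 2) / 5 : ℕ) : ℝ) * ((n / 4 : ℕ) : ℝ) / 256 := by
  unfold expN
  calc ∑ x, μ x * ((∑ ω : Site n → Bool, (Nq cross τ x ω : ℝ)) / 2 ^ Fintype.card (Site n))
      ≤ ∑ x, μ x * ((n : ℝ) ^ 2 - (((n - 2) / 5 : ℕ) : ℝ) * ((n / 4 : ℕ) : ℝ) / 256) :=
        Finset.sum_le_sum fun x _ => mul_le_mul_of_nonneg_left (sum_bound hτ x) (hμ x)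
    _ = _ := by rw [← Finset.sum_mul, hμ1, one_mul]

/-- Most-pivotal rules exist. -/
theorem exists_rule {V : Type} [Fintype V] [DecidableEq V] [Nonempty V] (f : (V → Bool) → Prop) :
    ∃ τ : Hist V → V, MostPivotal f τ := by
  classical
  have h : ∀ h : Hist V, ∃ x : V, (∃ ω, compat h ω) → ¬ decided f h →
      x ∉ known h ∧ ∀ y, y ∉ known h → cpr f h y ≤ cpr f h x := by
    intro h
    by_cases hnd : decided f h
    · exact ⟨Classical.arbitrary V, fun _ h' => absurd hnd h'⟩
    · obtain ⟨y, hy, _⟩ := exists_alive hnd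
      obtain ⟨x, hx, hmax⟩ := Finset.exists_max_image ((known h)ᶜ) (cpr f h) ⟨y, by simpa using hy⟩
      refine ⟨x, fun _ _ => ⟨by simpa using hx, fun z hz => hmax z (by simpa using hz)⟩⟩
  choose τ hτ using h
  exact ⟨τ, fun h _ h1 h2 => hτ h h1 h2⟩

end Pool.Agent.MPV
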