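import Mathlib

/-!
# The most-pivotal-site algorithm (MP_3545df_pr): definitions

Colours: `true` is black, `false` is white. All colourings of the finite set of sites are equally likely (independent fair
colours), so conditional probabilities given revealed colours are ratios of numbers of colourings.
-/

set_option autoImplicit false

namespace Pool.Agent.MPV

/-- A history: the queried sites with their colours, in the order of the queries. -/
abbrev Hist (V : Type) := List (V × Bool)

section gen

variable {V : Type} [Fintype V] [DecidableEq V]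

/-- The sites queried in the history `h`. -/
def known (h : Hist V) : Finset V := (h.map Prod.fst).toFinset

/-- The colouring `η` agrees with all colours revealed in `h`. -/
def compat (h : Hist V) (η : V → Bool) : Prop := ∀ p ∈ h, η p.1 = p.2

/-- Changing the colour of `x` alone changes `f η`. -/
def piv (f : (V → Bool) → Prop) (x : V) (η : V → Bool) : Prop :=
  ¬ (f (Function.update η x (!η x)) ↔ f η)

open Classical in
/-- The number of colourings that agree with `h` and for which `x` is pivotal. -/
noncomputable def cnt (f : (V → Bool) → Prop) (h : Hist V) (x : V) : ℕ :=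
  (Finset.univ.filter fun η : V → Bool => compat h η ∧ piv f x η).card

open Classical in
/-- The probability that `x` is pivotal, conditioned on the revealed colours. -/
noncomputable def cpr (f : (V → Bool) → Prop) (h : Hist V) (x : V) : ℝ :=
  (cnt f h x : ℝ) / ((Finset.univ.filter fun η : V → Bool => compat h η).card : ℝ)

/-- The revealed colours determine `f`. -/
def decided (f : (V → Bool) → Prop) (h : Hist V) : Prop :=
  (∀ η, compat h η → f η) ∨ (∀ η, compat h η → ¬ f η)

/-- `τ` is the query rule of a most-pivotal-site algorithm after the first query (with a tie-breaking rule that may depend on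
the whole history): as long as `f` is not determined it queries an unrevealed site that maximises the conditional probability of
being pivotal. -/
def MostPivotal (f : (V → Bool) → Prop) (τ : Hist V → V) : Prop :=
  ∀ h : Hist V, h ≠ [] → (∃ ω, compat h ω) → ¬ decided f h →
    τ h ∉ known h ∧ ∀ y, y ∉ known h → cpr f h y ≤ cpr f h (τ h)

/-- The next site: the first site is `x₁`. -/
def next (τ : Hist V → V) (x₁ : V) (h : Hist V) : V := if h = [] then x₁ else τ h

/-- The history after `k` queries when the colouring is `ω`. -/
def run (τ : Hist V → V) (x₁ : V) (ω : V → Bool) : ℕ → Hist V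
  | 0 => []
  | k + 1 => run τ x₁ ω k ++ [(next τ x₁ (run τ x₁ ω k), ω (next τ x₁ (run τ x₁ ω k)))]

/-- The number of queries: the algorithm stops as soon as `f` is determined. -/
noncomputable def Nq (f : (V → Bool) → Prop) (τ : Hist V → V) (x₁ : V) (ω : V → Bool) : ℕ :=
  sInf {k | decided f (run τ x₁ ω k)}

/-- The expected number of queries, first site of law `μ`, independent fair colours. -/
noncomputable def expN (f : (V → Bool) → Prop) (μ : V → ℝ) (τ : Hist V → V) : ℝ :=
  ∑ x, μ x * ((∑ ω : V → Bool, (Nq f τ x ω : ℝ)) / 2 ^ Fintype.card V)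

end gen

/-- The sites of the `n × n` rhombus; `(i, j)` is the lattice point `i e₁ + j e₂`. -/
abbrev Site (n : ℕ) := Fin n × Fin n

/-- The six directions of the triangular lattice in cyclic order. -/
def dir : Fin 6 → ℤ × ℤ := ![(1, 0), (0, 1), (-1, 1), (-1, 0), (0, -1), (1, -1)]

/-- `y = x + dir s`. -/
def isNb {n : ℕ} (s : Fin 6) (x y : Site n) : Prop :=
  ((y.1 : ℕ) : ℤ) = ((x.1 : ℕ) : ℤ) + (dir s).1 ∧ ((y.2 : ℕ) : ℤ) = ((x.2 : ℕ) : ℤ) + (dir s).2

/-- Adjacency in the triangular lattice. -/
def adj {n : ℕ} (x y : Site n) : Prop := ∃ s, isNb s x y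

/-- One step of a black path. -/
def bstep {n : ℕ} (ω : Site n → Bool) (a b : Site n) : Prop := adj a b ∧ ω b = true

/-- There is a black path in the rhombus from the left side (first coordinate `0`) to the right side (first coordinate
`n - 1`). -/
def cross {n : ℕ} (ω : Site n → Bool) : Prop :=
  ∃ u v : Site n, (u.1 : ℕ) = 0 ∧ (v.1 : ℕ) + 1 = n ∧ ω u = true ∧ Relation.ReflTransGen (bstep ω) u v

/-- The site `(a + i, b + j)` belongs to the triangle of side `4` (ten sites) with corner `(a, b)`: `T = true` is the triangle
`i + j ≤ 3`, `T = false` the inverted triangle `i + j ≥ 3` (`0 ≤ i, j ≤ 3`). -/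
def inTri {n : ℕ} (T : Bool) (a b : ℕ) (z : Site n) : Prop :=
  a ≤ z.1 ∧ (z.1 : ℕ) ≤ a + 3 ∧ b ≤ z.2 ∧ (z.2 : ℕ) ≤ b + 3 ∧
    (if T then (z.1 : ℕ) + z.2 ≤ a + b + 3 else a + b + 3 ≤ (z.1 : ℕ) + z.2)

end Pool.Agent.MPV
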