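import Pool.Agent.MPV.Defs

/-!
# Domination: an unqueried site that is dead once another one has colour `c` is at most as pivotal as the other one.
-/

set_option autoImplicit false

namespace Pool.Agent.MPV

set_option linter.unusedSectionVars false
set_option linter.unusedVariables false

variable {V : Type} [Fintype V] [DecidableEq V]

theorem known_nil : known ([] : Hist V) = ∅ := rfl

theorem known_append (h : Hist V) (p : V × Bool) : known (h ++ [p]) = insert p.1 (known h) := by
  ext x
  simp only [known, List.map_append, List.map_cons, List.map_nil, List.mem_toFinset, List.mem_append,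
    List.mem_singleton, Finset.mem_insert]
  tauto

theorem mem_known {h : Hist V} {x : V} : x ∈ known h ↔ ∃ p ∈ h, p.1 = x := by
  simp [known]

theorem compat_congr {h : Hist V} {η η' : V → Bool} (hc : compat h η) (he : ∀ z ∈ known h, η' z = η z) : compat h η' := by
  intro p hp
  rw [he p.1 (mem_known.2 ⟨p, hp, rfl⟩)]
  exact hc p hp

theorem compat_update {h : Hist V} {η : V → Bool} (hc : compat h η) {x : V} (hx : x ∉ known h) (b : Bool) :
    compat h (Function.update η x b) := by
  refine compat_congr hc fun z hz => ?_
  have hzx : z ≠ x := fun e => hx (e ▸ hz)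
  simp [Function.update_of_ne hzx]

theorem compat_append {h : Hist V} {p : V × Bool} {η : V → Bool} :
    compat (h ++ [p]) η ↔ compat h η ∧ η p.1 = p.2 := by
  constructor
  · intro H
    exact ⟨fun q hq => H q (List.mem_append_left _ hq), H p (by simp)⟩
  · rintro ⟨H1, H2⟩ q hq
    rcases List.mem_append.1 hq with hq | hq
    · exact H1 q hq
    · rw [List.mem_singleton.1 hq]; exact H2

/-- Monotone property of colourings (more black sites help). -/
def MonoF (f : (V → Bool) → Prop) : Prop := ∀ η η' : V → Bool, (∀ z, η z = true → η' z = true) → f η → f η'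

theorem piv_iff {f : (V → Bool) → Prop} (hf : MonoF f) (x : V) (η : V → Bool) :
    piv f x η ↔ (f (Function.update η x true) ∧ ¬ f (Function.update η x false)) := by
  have hmono : f (Function.update η x false) → f (Function.update η x true) := by
    refine hf _ _ fun z hz => ?_
    by_cases hzx : z = x
    · subst hzx; simp
    · rw [Function.update_of_ne hzx] at hz ⊢; exact hz
  have hself : Function.update η x (η x) = η := Function.update_eq_self x η
  rcases hb : η x with _ | _
  · have e : f η = f (Function.update η x false) := by rw [← hb, hself]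
    unfold piv
    rw [hb, e]
    simp only [Bool.not_false]
    tauto
  · have e : f η = f (Function.update η x true) := by rw [← hb, hself]
    unfold piv
    rw [hb, e]
    simp only [Bool.not_true]
    tauto

/-- Exchange the colours of `x` and `y`. -/
def swp (x y : V) (η : V → Bool) : V → Bool := Function.update (Function.update η x (η y)) y (η x)

theorem swp_at_right (x y : V) (η : V → Bool) : swp x y η y = η x := by simp [swp]

theorem swp_at_left {x y : V} (hxy : x ≠ y) (η : V → Bool) : swp x y η x = η y := by
  simp [swp, Function.update_of_ne hxy]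

theorem swp_of_ne {x y z : V} (hx : z ≠ x) (hy : z ≠ y) (η : V → Bool) : swp x y η z = η z := by
  simp [swp, Function.update_of_ne hx, Function.update_of_ne hy]

theorem swp_swp {x y : V} (hxy : x ≠ y) (η : V → Bool) : swp x y (swp x y η) = η := by
  funext z
  by_cases hzy : z = y
  · subst hzy; rw [swp_at_right, swp_at_left hxy]
  · by_cases hzx : z = x
    · subst hzx; rw [swp_at_left hxy, swp_at_right]
    · rw [swp_of_ne hzx hzy, swp_of_ne hzx hzy]

/-- two coordinates: value of the colouring with `x ↦ a`, `y ↦ b`. -/
def up2 (x y : V) (η : V → Bool) (a b : Bool) : V → Bool := Function.update (Function.update η x a) y b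

theorem up2_mono {f : (V → Bool) → Prop} (hf : MonoF f) {x y : V} (η : V → Bool) {a b a' b' : Bool}
    (ha : a = true → a' = true) (hb : b = true → b' = true) (h : f (up2 x y η a b)) : f (up2 x y η a' b') := by
  refine hf _ _ (fun z hz => ?_) h
  unfold up2 at hz ⊢
  by_cases hzy : z = y
  · subst hzy; simp only [Function.update_self] at hz ⊢; exact hb hz
  · rw [Function.update_of_ne hzy] at hz ⊢
    by_cases hzx : z = x
    · subst hzx; simp only [Function.update_self] at hz ⊢; exact ha hz
    · rw [Function.update_of_ne hzx] at hz ⊢; exact hz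

theorem up2_left {x y : V} (hxy : x ≠ y) (η : V → Bool) (a : Bool) :
    Function.update η x a = up2 x y η a (η y) := by
  unfold up2
  funext z
  by_cases hzy : z = y
  · subst hzy; rw [Function.update_self, Function.update_of_ne (Ne.symm hxy)]
  · rw [Function.update_of_ne hzy]

theorem up2_right {x y : V} (η : V → Bool) (b : Bool) :
    Function.update η y b = up2 x y η (η x) b := by
  unfold up2
  rw [Function.update_eq_self]

theorem up2_swp_left {x y : V} (hxy : x ≠ y) (η : V → Bool) (b : Bool) :
    Function.update (swp x y η) y b = up2 x y η (η y) b := by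
  unfold up2 swp
  rw [Function.update_idem]

theorem up2_up2 {x y : V} (η : V → Bool) (a b a' b' : Bool) :
    up2 x y (up2 x y η a b) a' b' = up2 x y η a' b' := by
  unfold up2
  funext z
  by_cases hzy : z = y
  · subst hzy; simp
  · rw [Function.update_of_ne hzy, Function.update_of_ne hzy]
    by_cases hzx : z = x
    · subst hzx; simp
    · rw [Function.update_of_ne hzx, Function.update_of_ne hzx, Function.update_of_ne hzy, Function.update_of_ne hzx]

/-- If `x` is dead as soon as `y` has colour `c`, then exchanging the colours of `x` and `y` maps pivotality of `x` to pivotality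
of `y`. -/
theorem piv_swp {f : (V → Bool) → Prop} (hf : MonoF f) {h : Hist V} {x y : V} (hxy : x ≠ y) (hx : x ∉ known h)
    (hy : y ∉ known h) {c : Bool} (hd : ∀ η, compat h η → η y = c → ¬ piv f x η) {η : V → Bool} (hc : compat h η)
    (hp : piv f x η) : compat h (swp x y η) ∧ piv f y (swp x y η) ∧ (swp x y η) x = !c := by
  have hyc : η y = !c := by
    by_contra hne
    have hyc' : η y = c := by
      revert hne; cases η y <;> cases c <;> simp
    exact hd η hc hyc' hp
  refine ⟨?_, ?_, ?_⟩
  · refine compat_congr hc fun z hz => ?_
    have h1 : z ≠ x := fun e => hx (e ▸ hz)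
    have h2 : z ≠ y := fun e => hy (e ▸ hz)
    exact swp_of_ne h1 h2 η
  · rw [piv_iff hf] at hp ⊢
    rw [up2_left hxy, up2_left hxy, hyc] at hp
    rw [up2_swp_left hxy, up2_swp_left hxy, hyc]
    -- death at `y = c`
    have hdc : ¬ (f (up2 x y η true c) ∧ ¬ f (up2 x y η false c)) := by
      have hc2 : compat h (Function.update η y c) := compat_update hc hy c
      have h3 := hd _ hc2 (by simp)
      rw [piv_iff hf] at h3
      have e1 : Function.update (Function.update η y c) x true = up2 x y η true c := by
        unfold up2; rw [Function.update_comm hxy]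
      have e2 : Function.update (Function.update η y c) x false = up2 x y η false c := by
        unfold up2; rw [Function.update_comm hxy]
      rw [e1, e2] at h3
      exact h3
    rcases c with _ | _
    · -- c = false
      simp only [Bool.not_false] at hp ⊢
      refine ⟨hp.1, fun h10 => ?_⟩
      -- f (1,0) would give f (0,0), hence f (0,1)
      have h00 : f (up2 x y η false false) := by
        by_contra h00
        exact hdc ⟨h10, h00⟩
      exact hp.2 (up2_mono hf η (fun e => e) (fun _ => rfl) h00)
    · -- c = true
      simp only [Bool.not_true] at hp ⊢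
      refine ⟨?_, hp.2⟩
      have h11 : f (up2 x y η true true) := up2_mono hf η (fun e => e) (fun _ => rfl) hp.1
      by_contra h01
      exact hdc ⟨h11, h01⟩
  · rw [swp_at_left hxy, hyc]

/-- Domination lemma. -/
theorem dom {f : (V → Bool) → Prop} (hf : MonoF f) {h : Hist V} {x y : V} (hxy : x ≠ y) (hx : x ∉ known h)
    (hy : y ∉ known h) {c : Bool} (hd : ∀ η, compat h η → η y = c → ¬ piv f x η) (hle : cnt f h y ≤ cnt f h x) :
    ∀ η, compat h η → η x = c → ¬ piv f y η := by
  classical
  intro η₀ hη₀ hη₀x hη₀p
  let A := Finset.univ.filter fun η : V → Bool => compat h η ∧ piv f x η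
  let B := Finset.univ.filter fun η : V → Bool => compat h η ∧ piv f y η
  have hA : cnt f h x = A.card := by
    unfold cnt; congr
  have hB : cnt f h y = B.card := by
    unfold cnt; congr
  have hsub : A.image (swp x y) ⊆ B.erase η₀ := by
    intro ζ hζ
    rw [Finset.mem_image] at hζ
    obtain ⟨η, hη, rfl⟩ := hζ
    obtain ⟨hη1, hη2⟩ := (Finset.mem_filter.1 hη).2
    obtain ⟨a1, a2, a3⟩ := piv_swp hf hxy hx hy hd hη1 hη2
    rw [Finset.mem_erase]
    refine ⟨fun e => ?_, Finset.mem_filter.2 ⟨Finset.mem_univ _, a1, a2⟩⟩
    rw [e, hη₀x] at a3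
    cases c <;> simp at a3
  have hinj : (A.image (swp x y)).card = A.card := by
    refine Finset.card_image_of_injective _ fun η η' he => ?_
    rw [← swp_swp hxy η, he, swp_swp hxy]
  have hη₀B : η₀ ∈ B := Finset.mem_filter.2 ⟨Finset.mem_univ _, hη₀, hη₀p⟩
  have h1 := Finset.card_le_card hsub
  rw [hinj, Finset.card_erase_of_mem hη₀B] at h1
  have h2 : 0 < B.card := Finset.card_pos.2 ⟨_, hη₀B⟩
  rw [hA, hB] at hle
  omega

end Pool.Agent.MPV
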