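import Pool.Agent.MPV.Dom

/-!
# Four consecutive neighbours of one colour kill a site
-/

set_option autoImplicit false

namespace Pool.Agent.MPV

theorem cross_mono {n : ℕ} : MonoF (cross (n := n)) := by
  rintro η η' h ⟨u, v, hu, hv, h1, h2⟩
  exact ⟨u, v, hu, hv, h u h1, Relation.ReflTransGen.mono (fun a b hab => ⟨hab.1, h b hab.2⟩) _ _ h2⟩

theorem isNb_unique {n : ℕ} {s : Fin 6} {x y z : Site n} (h1 : isNb s x y) (h2 : isNb s x z) : y = z := by
  obtain ⟨a1, a2⟩ := h1
  obtain ⟨b1, b2⟩ := h2
  apply Prod.ext <;> apply Fin.ext <;> omega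

theorem isNb_ne {n : ℕ} {s : Fin 6} {x y : Site n} (h : isNb s x y) : y ≠ x := by
  rintro rfl
  obtain ⟨a1, a2⟩ := h
  fin_cases s <;> simp [dir] at a1 a2

theorem adj_symm {n : ℕ} {x y : Site n} (h : adj x y) : adj y x := by
  obtain ⟨s, a1, a2⟩ := h
  refine ⟨s + 3, ?_, ?_⟩ <;> fin_cases s <;> simp [dir] at a1 a2 ⊢ <;> omega

/-- Consecutive neighbours of `x` are adjacent. -/
theorem adj_consec {n : ℕ} {s : Fin 6} {x y z : Site n} (h1 : isNb s x y) (h2 : isNb (s + 1) x z) : adj y z := by
  obtain ⟨a1, a2⟩ := h1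
  obtain ⟨b1, b2⟩ := h2
  refine ⟨s + 2, ?_, ?_⟩ <;> fin_cases s <;> simp [dir] at a1 a2 b1 b2 ⊢ <;> omega

theorem f6a : ∀ s : Fin 6, s + 4 = s + 3 + 1 := by decide
theorem f6b : ∀ s : Fin 6, s = s + 5 + 1 := by decide
theorem f6c : ∀ s : Fin 6, s + 1 + 1 = s + 2 := by decide
theorem f6d : ∀ s : Fin 6, s + 2 + 1 = s + 3 := by decide
theorem f6e : ∀ s : Fin 6, s + 5 = s + 4 + 1 := by decide

theorem fin6_cases (s t : Fin 6) : t = s ∨ t = s + 1 ∨ t = s + 2 ∨ t = s + 3 ∨ t = s + 4 ∨ t = s + 5 := by
  revert s t; decide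

/-- If the black neighbours of `x` are connected to one another by black paths avoiding `x`, and `x` is not on the left or
right side, then `x` is not pivotal. -/
theorem bypass {n : ℕ} {x : Site n} (hl : (x.1 : ℕ) ≠ 0) (hr : (x.1 : ℕ) + 1 ≠ n) (η : Site n → Bool)
    (hconn : ∀ y z : Site n, adj x y → adj x z → η y = true → η z = true →
      Relation.ReflTransGen (bstep (Function.update η x false)) y z) : ¬ piv cross x η := by
  rw [piv_iff cross_mono]
  rintro ⟨⟨u, v, hu, hv, h1, h2⟩, hneg⟩
  apply hneg
  have hux : u ≠ x := fun e => hl (e ▸ hu)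
  have hvx : v ≠ x := fun e => hr (e ▸ hv)
  have hη1 : ∀ z, z ≠ x → Function.update η x true z = η z := fun z hz => Function.update_of_ne hz _ _
  have hη0 : ∀ z, z ≠ x → Function.update η x false z = η z := fun z hz => Function.update_of_ne hz _ _
  have key : ∀ z, Relation.ReflTransGen (bstep (Function.update η x true)) u z →
      ((z ≠ x → η z = true ∧ Relation.ReflTransGen (bstep (Function.update η x false)) u z) ∧
       (z = x → ∃ y, adj x y ∧ η y = true ∧ y ≠ x ∧ Relation.ReflTransGen (bstep (Function.update η x false)) u y)) := by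
    intro z hz
    induction hz with
    | refl =>
      refine ⟨fun _ => ⟨?_, Relation.ReflTransGen.refl⟩, fun e => absurd e hux⟩
      rw [← hη1 u hux]; exact h1
    | @tail a c hab hbc ih =>
      obtain ⟨hadj, hblack⟩ := hbc
      have hac : a ≠ c := by
        rintro rfl
        obtain ⟨s, hs⟩ := hadj
        exact isNb_ne hs rfl
      by_cases hax : a = x
      · subst hax
        refine ⟨fun hcx => ?_, fun hcx => absurd hcx.symm hac⟩
        obtain ⟨y, hy1, hy2, hy3, hy4⟩ := ih.2 rfl
        have hcb : η c = true := by rw [← hη1 c hcx]; exact hblack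
        exact ⟨hcb, hy4.trans (hconn y c hy1 hadj hy2 hcb)⟩
      · obtain ⟨ha1, ha2⟩ := ih.1 hax
        refine ⟨fun hcx => ?_, fun hcx => ?_⟩
        · have hcb : η c = true := by rw [← hη1 c hcx]; exact hblack
          exact ⟨hcb, ha2.tail ⟨hadj, by rw [hη0 c hcx]; exact hcb⟩⟩
        · subst hcx
          exact ⟨a, adj_symm hadj, ha1, hax, ha2⟩
  obtain ⟨_, hreach⟩ := (key v h2).1 hvx
  exact ⟨u, v, hu, hv, by rw [hη0 u hux, ← hη1 u hux]; exact h1, hreach⟩

theorem adj_ne {n : ℕ} {x y : Site n} (h : adj x y) : y ≠ x := by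
  obtain ⟨s, hs⟩ := h; exact isNb_ne hs

/-- Four consecutive neighbours of the same colour kill `x`. -/
theorem four {n : ℕ} {x n1 n2 n3 n4 : Site n} (hl : (x.1 : ℕ) ≠ 0) (hr : (x.1 : ℕ) + 1 ≠ n) {s : Fin 6} {b : Bool}
    (h1 : isNb s x n1) (h2 : isNb (s + 1) x n2) (h3 : isNb (s + 2) x n3) (h4 : isNb (s + 3) x n4) (η : Site n → Bool)
    (e1 : η n1 = b) (e2 : η n2 = b) (e3 : η n3 = b) (e4 : η n4 = b) : ¬ piv cross x η := by
  have s5 : s + 4 = s + 3 + 1 := f6a s
  have s6 : s = s + 5 + 1 := f6b s
  have step : ∀ y z : Site n, adj x z → adj y z → η z = true → bstep (Function.update η x false) y z := by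
    intro y z hxz hyz hz
    exact ⟨hyz, by rw [Function.update_of_ne (adj_ne hxz)]; exact hz⟩
  refine bypass hl hr η fun y z hy hz by_ bz => ?_
  have a1 : adj x n1 := ⟨_, h1⟩
  have a2 : adj x n2 := ⟨_, h2⟩
  have a3 : adj x n3 := ⟨_, h3⟩
  have a4 : adj x n4 := ⟨_, h4⟩
  have a12 : adj n1 n2 := adj_consec h1 h2
  have a23 : adj n2 n3 := adj_consec h2 (by rw [f6c s]; exact h3)
  have a34 : adj n3 n4 := adj_consec h3 (by rw [f6d s]; exact h4)
  rcases b with _ | _
  · -- white: the black neighbours are among the last two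
    have hcase : ∀ w : Site n, adj x w → η w = true → isNb (s + 4) x w ∨ isNb (s + 5) x w := by
      rintro w ⟨t, ht⟩ hw
      rcases fin6_cases s t with rfl | rfl | rfl | rfl | rfl | rfl
      · rw [isNb_unique ht h1, e1] at hw; exact absurd hw (by decide)
      · rw [isNb_unique ht h2, e2] at hw; exact absurd hw (by decide)
      · rw [isNb_unique ht h3, e3] at hw; exact absurd hw (by decide)
      · rw [isNb_unique ht h4, e4] at hw; exact absurd hw (by decide)
      · exact Or.inl ht
      · exact Or.inr ht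
    have e45 : s + 5 = s + 4 + 1 := f6e s
    rcases hcase y hy by_ with hy' | hy' <;> rcases hcase z hz bz with hz' | hz'
    · rw [isNb_unique hy' hz']
    · exact Relation.ReflTransGen.single (step _ _ hz (adj_consec hy' (e45 ▸ hz')) bz)
    · exact Relation.ReflTransGen.single (step _ _ hz (adj_symm (adj_consec hz' (e45 ▸ hy'))) bz)
    · rw [isNb_unique hy' hz']
  · -- black: every black neighbour is connected to n1
    have to1 : ∀ w : Site n, adj x w → η w = true →
        Relation.ReflTransGen (bstep (Function.update η x false)) w n1 ∧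
        Relation.ReflTransGen (bstep (Function.update η x false)) n1 w := by
      have c12 : bstep (Function.update η x false) n1 n2 := step _ _ a2 a12 e2
      have c21 : bstep (Function.update η x false) n2 n1 := step _ _ a1 (adj_symm a12) e1
      have c23 : bstep (Function.update η x false) n2 n3 := step _ _ a3 a23 e3
      have c32 : bstep (Function.update η x false) n3 n2 := step _ _ a2 (adj_symm a23) e2
      have c34 : bstep (Function.update η x false) n3 n4 := step _ _ a4 a34 e4
      have c43 : bstep (Function.update η x false) n4 n3 := step _ _ a3 (adj_symm a34) e3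
      have r2 : Relation.ReflTransGen (bstep (Function.update η x false)) n2 n1 := Relation.ReflTransGen.single c21
      have r2' : Relation.ReflTransGen (bstep (Function.update η x false)) n1 n2 := Relation.ReflTransGen.single c12
      have r3 : Relation.ReflTransGen (bstep (Function.update η x false)) n3 n1 := Relation.ReflTransGen.head c32 r2
      have r3' : Relation.ReflTransGen (bstep (Function.update η x false)) n1 n3 := r2'.tail c23
      have r4 : Relation.ReflTransGen (bstep (Function.update η x false)) n4 n1 := Relation.ReflTransGen.head c43 r3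
      have r4' : Relation.ReflTransGen (bstep (Function.update η x false)) n1 n4 := r3'.tail c34
      rintro w ⟨t, ht⟩ hw
      have hxw : adj x w := ⟨t, ht⟩
      rcases fin6_cases s t with rfl | rfl | rfl | rfl | rfl | rfl
      · rw [isNb_unique ht h1]; exact ⟨Relation.ReflTransGen.refl, Relation.ReflTransGen.refl⟩
      · rw [isNb_unique ht h2]; exact ⟨r2, r2'⟩
      · rw [isNb_unique ht h3]; exact ⟨r3, r3'⟩
      · rw [isNb_unique ht h4]; exact ⟨r4, r4'⟩
      · have a4w : adj n4 w := adj_consec h4 (s5 ▸ ht)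
        exact ⟨Relation.ReflTransGen.head (step _ _ a4 (adj_symm a4w) e4) r4, r4'.tail (step _ _ hxw a4w hw)⟩
      · have aw1 : adj w n1 := adj_consec ht (by rw [← s6]; exact h1)
        exact ⟨Relation.ReflTransGen.single (step _ _ a1 aw1 e1),
          Relation.ReflTransGen.single (step _ _ hxw (adj_symm aw1) hw)⟩
    exact (to1 y hy by_).1.trans (to1 z hz bz).2

end Pool.Agent.MPV
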