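import Pool.Agent.MPV.Dom

/-!
# Runs of a most-pivotal-site algorithm
-/

set_option autoImplicit false
set_option linter.unusedSectionVars false
set_option linter.unusedVariables false

namespace Pool.Agent.MPV

variable {V : Type} [Fintype V] [DecidableEq V]

theorem compat_run (τ : Hist V → V) (x₁ : V) (ω : V → Bool) (k : ℕ) : compat (run τ x₁ ω k) ω := by
  induction k with
  | zero => intro p hp; simp [run] at hp
  | succ k ih => rw [run, compat_append]; exact ⟨ih, rfl⟩

theorem known_run_succ (τ : Hist V → V) (x₁ : V) (ω : V → Bool) (k : ℕ) :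
    known (run τ x₁ ω (k + 1)) = insert (next τ x₁ (run τ x₁ ω k)) (known (run τ x₁ ω k)) := by
  rw [run, known_append]

theorem compat_run_mono (τ : Hist V → V) (x₁ : V) (ω : V → Bool) {k k' : ℕ} (hk : k ≤ k') {η : V → Bool}
    (h : compat (run τ x₁ ω k') η) : compat (run τ x₁ ω k) η := by
  induction k', hk using Nat.le_induction with
  | base => exact h
  | succ m _ ih => rw [run, compat_append] at h; exact ih h.1

theorem known_run_mono (τ : Hist V → V) (x₁ : V) (ω : V → Bool) {k k' : ℕ} (hk : k ≤ k') :
    known (run τ x₁ ω k) ⊆ known (run τ x₁ ω k') := by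
  induction k', hk using Nat.le_induction with
  | base => exact Finset.Subset.refl _
  | succ m _ ih => rw [known_run_succ]; exact ih.trans (Finset.subset_insert _ _)

theorem run_length (τ : Hist V → V) (x₁ : V) (ω : V → Bool) (k : ℕ) : (run τ x₁ ω k).length = k := by
  induction k with
  | zero => rfl
  | succ k ih => rw [run, List.length_append, ih]; rfl

theorem run_ne_nil (τ : Hist V → V) (x₁ : V) (ω : V → Bool) {k : ℕ} (hk : 1 ≤ k) : run τ x₁ ω k ≠ [] := by
  intro h
  have := run_length τ x₁ ω k
  rw [h] at this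
  simp at this
  omega

/-- Every colouring compatible with `h` that differs only on unqueried sites can be reached site by site. -/
theorem exists_alive {f : (V → Bool) → Prop} {h : Hist V} (hnd : ¬ decided f h) :
    ∃ y, y ∉ known h ∧ ∃ η, compat h η ∧ piv f y η := by
  by_contra hcon
  push Not at hcon
  unfold decided at hnd
  push Not at hnd
  obtain ⟨⟨η, hη, hfη⟩, ⟨η', hη', hfη'⟩⟩ := hnd
  have heq : ∀ z ∈ known h, η' z = η z := by
    intro z hz
    obtain ⟨p, hp, rfl⟩ := mem_known.1 hz
    rw [hη p hp, hη' p hp]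
  have key : ∀ S : Finset V, (f (fun z => if z ∈ S then η' z else η z) ↔ f η) := by
    intro S
    induction S using Finset.induction_on with
    | empty => simp
    | insert a S ha ih =>
      have e1 : (fun z => if z ∈ insert a S then η' z else η z) =
          Function.update (fun z => if z ∈ S then η' z else η z) a (η' a) := by
        funext z
        by_cases hza : z = a
        · subst hza; simp
        · rw [Function.update_of_ne hza]; simp [hza]
      have hcS : compat h (fun z => if z ∈ S then η' z else η z) := by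
        refine compat_congr hη fun z hz => ?_
        show (if z ∈ S then η' z else η z) = η z
        split_ifs
        · exact heq z hz
        · rfl
      rw [e1, ← ih]
      by_cases hak : a ∈ known h
      · have e2 : Function.update (fun z => if z ∈ S then η' z else η z) a (η' a) =
            fun z => if z ∈ S then η' z else η z := by
          funext z
          by_cases hza : z = a
          · subst hza; simp [ha, heq z hak]
          · rw [Function.update_of_ne hza]
        rw [e2]
      · have hp := hcon a hak _ hcS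
        unfold piv at hp
        rw [not_not] at hp
        generalize hζ : (fun z => if z ∈ S then η' z else η z) = ζ at hp ⊢
        by_cases hb : η' a = ζ a
        · rw [hb, Function.update_eq_self]
        · have hb' : η' a = !ζ a := by
            revert hb; cases η' a <;> cases ζ a <;> simp
          rw [hb']; exact hp
  have := key Finset.univ
  simp only [Finset.mem_univ, if_true] at this
  exact hfη (this.1 hfη')

theorem cnt_pos {f : (V → Bool) → Prop} {h : Hist V} {x : V} (hx : ∃ η, compat h η ∧ piv f x η) : 0 < cnt f h x := by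
  classical
  obtain ⟨η, h1, h2⟩ := hx
  unfold cnt
  exact Finset.card_pos.2 ⟨η, Finset.mem_filter.2 ⟨Finset.mem_univ _, h1, h2⟩⟩

theorem cnt_eq_zero {f : (V → Bool) → Prop} {h : Hist V} {x : V} (hx : ∀ η, compat h η → ¬ piv f x η) : cnt f h x = 0 := by
  classical
  unfold cnt
  rw [Finset.card_eq_zero, Finset.filter_eq_empty_iff]
  intro η _ hη
  exact hx η hη.1 hη.2

theorem cnt_le_of_cpr {f : (V → Bool) → Prop} {h : Hist V} {x y : V} (hω : ∃ ω, compat h ω)
    (hle : cpr f h y ≤ cpr f h x) : cnt f h y ≤ cnt f h x := by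
  classical
  obtain ⟨ω, hω⟩ := hω
  unfold cpr at hle
  have hD : 0 < ((Finset.univ.filter fun η : V → Bool => compat h η).card : ℝ) := by
    have : 0 < (Finset.univ.filter fun η : V → Bool => compat h η).card :=
      Finset.card_pos.2 ⟨ω, Finset.mem_filter.2 ⟨Finset.mem_univ _, hω⟩⟩
    exact_mod_cast this
  have h2 := (div_le_div_iff_of_pos_right (c := ((Finset.univ.filter fun η : V → Bool => compat h η).card : ℝ))
    (a := (cnt f h y : ℝ)) (b := (cnt f h x : ℝ)) (by convert hD)).1 (by convert hle)
  exact_mod_cast h2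

section run

variable {f : (V → Bool) → Prop} {τ : Hist V → V} (hτ : MostPivotal f τ) (x₁ : V) (ω : V → Bool)

include hτ in
theorem next_spec {k : ℕ} (hk : 1 ≤ k) (hnd : ¬ decided f (run τ x₁ ω k)) :
    next τ x₁ (run τ x₁ ω k) ∉ known (run τ x₁ ω k) ∧
      ∀ y, y ∉ known (run τ x₁ ω k) → cnt f (run τ x₁ ω k) y ≤ cnt f (run τ x₁ ω k) (next τ x₁ (run τ x₁ ω k)) := by
  have hne := run_ne_nil τ x₁ ω hk
  obtain ⟨h1, h2⟩ := hτ _ hne ⟨ω, compat_run τ x₁ ω k⟩ hnd
  unfold next
  rw [if_neg hne]
  exact ⟨h1, fun y hy => cnt_le_of_cpr ⟨ω, compat_run τ x₁ ω k⟩ (h2 y hy)⟩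

include hτ in
theorem next_not_known {k : ℕ} (hnd : ¬ decided f (run τ x₁ ω k)) :
    next τ x₁ (run τ x₁ ω k) ∉ known (run τ x₁ ω k) := by
  rcases Nat.eq_zero_or_pos k with hk | hk
  · subst hk
    simp [run, known]
  · exact (next_spec hτ x₁ ω hk hnd).1

include hτ in
/-- The queried site is alive. -/
theorem next_alive {k : ℕ} (hk : 1 ≤ k) (hnd : ¬ decided f (run τ x₁ ω k)) :
    0 < cnt f (run τ x₁ ω k) (next τ x₁ (run τ x₁ ω k)) := by
  obtain ⟨y, hy, hη⟩ := exists_alive hnd
  exact lt_of_lt_of_le (cnt_pos hη) ((next_spec hτ x₁ ω hk hnd).2 y hy)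

include hτ in
/-- A dead site is never queried later. -/
theorem dead_not_queried {k k' : ℕ} (hk : 1 ≤ k) (hkk : k ≤ k') (hnd : ∀ j, j < k' → ¬ decided f (run τ x₁ ω j)) {y : V}
    (hy : y ∉ known (run τ x₁ ω k)) (hd : ∀ η, compat (run τ x₁ ω k) η → ¬ piv f y η) :
    y ∉ known (run τ x₁ ω k') := by
  induction k', hkk using Nat.le_induction with
  | base => exact hy
  | succ m hm ih =>
    have h1 := ih fun j hj => hnd j (by omega)
    rw [known_run_succ, Finset.mem_insert, not_or]
    refine ⟨fun e => ?_, h1⟩
    have h2 := next_alive hτ x₁ ω (hk.trans hm) (hnd m (by omega))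
    rw [← e, cnt_eq_zero fun η hη => hd η (compat_run_mono τ x₁ ω hm hη)] at h2
    exact lt_irrefl _ h2

include hτ in
theorem card_known {k : ℕ} (hnd : ∀ j, j < k → ¬ decided f (run τ x₁ ω j)) : (known (run τ x₁ ω k)).card = k := by
  induction k with
  | zero => rfl
  | succ k ih =>
    rw [known_run_succ, Finset.card_insert_of_notMem (next_not_known hτ x₁ ω (hnd k (by omega))),
      ih fun j hj => hnd j (by omega)]

include hτ in
theorem exists_decided : ∃ k, k ≤ Fintype.card V ∧ decided f (run τ x₁ ω k) := by
  by_contra hcon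
  push Not at hcon
  have hc := card_known hτ x₁ ω (k := Fintype.card V) fun j hj => hcon j (le_of_lt hj)
  have hu : known (run τ x₁ ω (Fintype.card V)) = Finset.univ := Finset.card_eq_iff_eq_univ _ |>.1 hc
  refine hcon _ le_rfl ?_
  have huniq : ∀ η, compat (run τ x₁ ω (Fintype.card V)) η → η = ω := by
    intro η hη
    funext z
    have hz : z ∈ known (run τ x₁ ω (Fintype.card V)) := by rw [hu]; exact Finset.mem_univ _
    obtain ⟨p, hp, rfl⟩ := mem_known.1 hz
    rw [hη p hp, compat_run τ x₁ ω _ p hp]
  by_cases hf : f ω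
  · exact Or.inl fun η hη => by rw [huniq η hη]; exact hf
  · exact Or.inr fun η hη => by rw [huniq η hη]; exact hf

include hτ in
theorem Nq_spec : decided f (run τ x₁ ω (Nq f τ x₁ ω)) := by
  obtain ⟨k, _, hk⟩ := exists_decided hτ x₁ ω
  exact Nat.sInf_mem (s := {k | decided f (run τ x₁ ω k)}) ⟨k, hk⟩

theorem not_decided_of_lt {j : ℕ} (hj : j < Nq f τ x₁ ω) : ¬ decided f (run τ x₁ ω j) :=
  fun h => Nat.notMem_of_lt_sInf hj h

include hτ in
theorem card_known_Nq : (known (run τ x₁ ω (Nq f τ x₁ ω))).card = Nq f τ x₁ ω :=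
  card_known hτ x₁ ω fun _ hj => not_decided_of_lt x₁ ω hj

include hτ in
/-- The query time of a queried site. -/
theorem exists_time {z : V} {K : ℕ} (hz : z ∈ known (run τ x₁ ω K)) :
    ∃ k, k < K ∧ next τ x₁ (run τ x₁ ω k) = z := by
  induction K with
  | zero => simp [run, known] at hz
  | succ K ih =>
    rw [known_run_succ, Finset.mem_insert] at hz
    rcases hz with rfl | hz
    · exact ⟨K, by omega, rfl⟩
    · obtain ⟨k, hk, he⟩ := ih hz
      exact ⟨k, by omega, he⟩

end run

end Pool.Agent.MPV
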