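import Pool.Agent.MPV.Win
import Pool.Agent.MPV.Geo

/-!
# The forbidden triangle
-/

set_option autoImplicit false

namespace Pool.Agent.MPV

/-- Site number `p` of the `4 × 4` box with lower corner `(a, b)`. -/
def st {n a b : ℕ} (ha : a + 3 < n) (hb : b + 3 < n) (p : Fin 4 × Fin 4) : Site n :=
  (⟨a + p.1, by have := p.1.2; omega⟩, ⟨b + p.2, by have := p.2.2; omega⟩)

theorem st_inj {n a b : ℕ} (ha : a + 3 < n) (hb : b + 3 < n) : Function.Injective (st ha hb) := by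
  intro p q h
  have h1 := congrArg (fun z : Site n => (z.1 : ℕ)) h
  have h2 := congrArg (fun z : Site n => (z.2 : ℕ)) h
  simp only [st] at h1 h2
  apply Prod.ext <;> apply Fin.ext <;> omega

/-- The triangle in the small box. -/
def tri (T : Bool) : Finset (Fin 4 × Fin 4) :=
  Finset.univ.filter fun p => if T then (p.1 : ℕ) + p.2 ≤ 3 else 3 ≤ (p.1 : ℕ) + p.2

open Classical in
/-- The triangle in the rhombus. -/
noncomputable def triF (n : ℕ) (T : Bool) (a b : ℕ) : Finset (Site n) :=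
  Finset.univ.filter fun z => inTri T a b z

theorem mem_triF {n : ℕ} {T : Bool} {a b : ℕ} {z : Site n} : z ∈ triF n T a b ↔ inTri T a b z := by
  simp [triF]

theorem triF_eq {n a b : ℕ} (ha : a + 3 < n) (hb : b + 3 < n) (T : Bool) :
    triF n T a b = (tri T).image (st ha hb) := by
  ext z
  rw [mem_triF, Finset.mem_image]
  constructor
  · rintro ⟨h1, h2, h3, h4, h5⟩
    refine ⟨(⟨z.1 - a, by omega⟩, ⟨z.2 - b, by omega⟩), ?_, ?_⟩
    · simp only [tri, Finset.mem_filter, Finset.mem_univ, true_and]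
      cases T <;> simp at h5 ⊢ <;> omega
    · apply Prod.ext <;> apply Fin.ext <;> simp only [st] <;> omega
  · rintro ⟨p, hp, rfl⟩
    simp only [tri, Finset.mem_filter, Finset.mem_univ, true_and] at hp
    have := p.1.2
    have := p.2.2
    refine ⟨?_, ?_, ?_, ?_, ?_⟩ <;> simp only [st]
    · omega
    · omega
    · omega
    · omega
    · cases T <;> simp at hp ⊢ <;> omega

theorem card_triF {n a b : ℕ} (ha : a + 3 < n) (hb : b + 3 < n) (T : Bool) : (triF n T a b).card = 10 := by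
  rw [triF_eq ha hb, Finset.card_image_of_injective _ (st_inj ha hb)]
  cases T <;> decide

/-- The flower in the small box. -/
def flo (T : Bool) : Finset (Fin 4 × Fin 4) :=
  if T then {(1, 1), (1, 0), (2, 0), (2, 1), (1, 2), (0, 2), (0, 1)}
  else {(2, 2), (2, 3), (1, 3), (1, 2), (2, 1), (3, 1), (3, 2)}

/-- Neighbour relation in the small box. -/
def sNb (s : Fin 6) (p q : Fin 4 × Fin 4) : Bool :=
  decide (((q.1 : ℕ) : ℤ) = ((p.1 : ℕ) : ℤ) + (dir s).1 ∧ ((q.2 : ℕ) : ℤ) = ((p.2 : ℕ) : ℤ) + (dir s).2)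

theorem isNb_st {n a b : ℕ} (ha : a + 3 < n) (hb : b + 3 < n) {s : Fin 6} {p q : Fin 4 × Fin 4}
    (h : sNb s p q = true) : isNb s (st ha hb p) (st ha hb q) := by
  unfold sNb at h
  rw [decide_eq_true_iff] at h
  refine ⟨?_, ?_⟩ <;> simp only [st] <;> push_cast <;> omega

/-- The finite check for one window. -/
def chk (T : Bool) (z q1 q2 q3 q4 y : Fin 4 × Fin 4) (s : Fin 6) : Bool :=
  sNb s z q1 && sNb (s + 1) z q2 && sNb (s + 2) z q3 && sNb (s + 3) z q4 &&
  decide (q1 ∈ tri T) && decide (q2 ∈ tri T) && decide (q3 ∈ tri T) && decide (q4 ∈ tri T) &&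
  decide (y = q1 ∨ y = q2 ∨ y = q3 ∨ y = q4) &&
  decide (z ≠ q1 ∧ z ≠ q2 ∧ z ≠ q3 ∧ z ≠ q4) &&
  decide (q1 = y ∨ q1 ∈ flo T) && decide (q2 = y ∨ q2 ∈ flo T) && decide (q3 = y ∨ q3 ∈ flo T) &&
  decide (q4 = y ∨ q4 ∈ flo T)

theorem mkW {n a b : ℕ} (ha0 : 1 ≤ a) (ha4 : a + 4 < n) (ha : a + 3 < n) (hb : b + 3 < n) (T : Bool) (c : Bool)
    (z q1 q2 q3 q4 y : Fin 4 × Fin 4) (s : Fin 6) (h : chk T z q1 q2 q3 q4 y s = true) :
    ∃ W : Finset (Site n), ∃ y' ∈ W, W ⊆ triF n T a b ∧ st ha hb z ∉ W ∧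
      (∀ w ∈ W, w ≠ y' → w ∈ (flo T).image (st ha hb)) ∧
      ∀ η : Site n → Bool, (∀ w ∈ W, η w = c) → ¬ piv cross (st ha hb z) η := by
  simp only [chk, Bool.and_eq_true, decide_eq_true_eq] at h
  obtain ⟨⟨⟨⟨⟨⟨⟨⟨⟨⟨⟨⟨⟨n1, n2⟩, n3⟩, n4⟩, t1⟩, t2⟩, t3⟩, t4⟩, hy⟩, hz⟩, f1⟩, f2⟩, f3⟩, f4⟩ := h
  have hinj := st_inj ha hb
  refine ⟨{st ha hb q1, st ha hb q2, st ha hb q3, st ha hb q4}, st ha hb y, ?_, ?_, ?_, ?_, ?_⟩
  · simp only [Finset.mem_insert, Finset.mem_singleton]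
    rcases hy with h | h | h | h <;> rw [h] <;> simp
  · intro w hw
    simp only [Finset.mem_insert, Finset.mem_singleton] at hw
    rw [triF_eq ha hb]
    rcases hw with rfl | rfl | rfl | rfl
    · exact Finset.mem_image_of_mem _ t1
    · exact Finset.mem_image_of_mem _ t2
    · exact Finset.mem_image_of_mem _ t3
    · exact Finset.mem_image_of_mem _ t4
  · simp only [Finset.mem_insert, Finset.mem_singleton, not_or]
    exact ⟨fun e => hz.1 (hinj e), fun e => hz.2.1 (hinj e), fun e => hz.2.2.1 (hinj e), fun e => hz.2.2.2 (hinj e)⟩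
  · intro w hw hwy
    simp only [Finset.mem_insert, Finset.mem_singleton] at hw
    rcases hw with rfl | rfl | rfl | rfl
    · exact Finset.mem_image_of_mem _ (f1.resolve_left fun e => hwy (by rw [e]))
    · exact Finset.mem_image_of_mem _ (f2.resolve_left fun e => hwy (by rw [e]))
    · exact Finset.mem_image_of_mem _ (f3.resolve_left fun e => hwy (by rw [e]))
    · exact Finset.mem_image_of_mem _ (f4.resolve_left fun e => hwy (by rw [e]))
  · intro η hη
    have e1 := hη _ (by simp : st ha hb q1 ∈ ({st ha hb q1, st ha hb q2, st ha hb q3, st ha hb q4} : Finset (Site n)))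
    have e2 := hη _ (by simp : st ha hb q2 ∈ ({st ha hb q1, st ha hb q2, st ha hb q3, st ha hb q4} : Finset (Site n)))
    have e3 := hη _ (by simp : st ha hb q3 ∈ ({st ha hb q1, st ha hb q2, st ha hb q3, st ha hb q4} : Finset (Site n)))
    have e4 := hη _ (by simp : st ha hb q4 ∈ ({st ha hb q1, st ha hb q2, st ha hb q3, st ha hb q4} : Finset (Site n)))
    have hz1 := z.1.2
    refine four (s := s) (b := c) ?_ ?_ (isNb_st ha hb n1) (isNb_st ha hb n2) (isNb_st ha hb n3) (isNb_st ha hb n4) η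
      e1 e2 e3 e4
    · simp only [st]; omega
    · simp only [st]; omega

/-- The queried sites never contain a monochromatic triangle of side `4` off the left and right sides. -/
theorem noTri {n : ℕ} {τ : Hist (Site n) → Site n} (hτ : MostPivotal cross τ) (x₁ : Site n) (ω : Site n → Bool)
    {a b : ℕ} (ha0 : 1 ≤ a) (ha4 : a + 4 < n) (hb : b + 3 < n) (T c : Bool)
    (hω : ∀ z, inTri T a b z → ω z = c) :
    ∃ z, inTri T a b z ∧ z ∉ known (run τ x₁ ω (Nq cross τ x₁ ω)) := by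
  have ha : a + 3 < n := by omega
  have hFT : (flo T).image (st ha hb) ⊆ triF n T a b := by
    rw [triF_eq ha hb]
    apply Finset.image_subset_image
    cases T <;> decide
  have hgeo : ∀ z ∈ (flo T).image (st ha hb), ∃ W : Finset (Site n), ∃ y ∈ W, W ⊆ triF n T a b ∧ z ∉ W ∧
      (∀ w ∈ W, w ≠ y → w ∈ (flo T).image (st ha hb)) ∧
      ∀ η : Site n → Bool, (∀ w ∈ W, η w = c) → ¬ piv cross z η := by
    intro z hz
    obtain ⟨p, hp, rfl⟩ := Finset.mem_image.1 hz
    cases T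
    · simp only [flo, Bool.false_eq_true, if_false, Finset.mem_insert, Finset.mem_singleton] at hp
      rcases hp with rfl | rfl | rfl | rfl | rfl | rfl | rfl
      · exact mkW ha0 ha4 ha hb false c (2, 2) (1, 2) (2, 1) (3, 1) (3, 2) (1, 2) 3 (by decide)
      · exact mkW ha0 ha4 ha hb false c (2, 3) (1, 3) (2, 2) (3, 2) (3, 3) (3, 3) 3 (by decide)
      · exact mkW ha0 ha4 ha hb false c (1, 3) (0, 3) (1, 2) (2, 2) (2, 3) (0, 3) 3 (by decide)
      · exact mkW ha0 ha4 ha hb false c (1, 2) (2, 1) (2, 2) (1, 3) (0, 3) (0, 3) 5 (by decide)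
      · exact mkW ha0 ha4 ha hb false c (2, 1) (3, 0) (3, 1) (2, 2) (1, 2) (3, 0) 5 (by decide)
      · exact mkW ha0 ha4 ha hb false c (3, 1) (3, 2) (2, 2) (2, 1) (3, 0) (3, 0) 1 (by decide)
      · exact mkW ha0 ha4 ha hb false c (3, 2) (3, 3) (2, 3) (2, 2) (3, 1) (3, 3) 1 (by decide)
    · simp only [flo, if_true, Finset.mem_insert, Finset.mem_singleton] at hp
      rcases hp with rfl | rfl | rfl | rfl | rfl | rfl | rfl
      · exact mkW ha0 ha4 ha hb true c (1, 1) (2, 1) (1, 2) (0, 2) (0, 1) (2, 1) 0 (by decide)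
      · exact mkW ha0 ha4 ha hb true c (1, 0) (2, 0) (1, 1) (0, 1) (0, 0) (0, 0) 0 (by decide)
      · exact mkW ha0 ha4 ha hb true c (2, 0) (3, 0) (2, 1) (1, 1) (1, 0) (3, 0) 0 (by decide)
      · exact mkW ha0 ha4 ha hb true c (2, 1) (1, 2) (1, 1) (2, 0) (3, 0) (3, 0) 2 (by decide)
      · exact mkW ha0 ha4 ha hb true c (1, 2) (0, 3) (0, 2) (1, 1) (2, 1) (0, 3) 2 (by decide)
      · exact mkW ha0 ha4 ha hb true c (0, 2) (0, 1) (1, 1) (1, 2) (0, 3) (0, 3) 4 (by decide)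
      · exact mkW ha0 ha4 ha hb true c (0, 1) (0, 0) (1, 0) (1, 1) (0, 2) (0, 0) 4 (by decide)
  have hne : ∃ u ∈ (flo T).image (st ha hb), ∃ v ∈ (flo T).image (st ha hb), u ≠ v := by
    refine ⟨st ha hb (1, 2), ?_, st ha hb (2, 1), ?_, fun e => ?_⟩
    · apply Finset.mem_image_of_mem; cases T <;> decide
    · apply Finset.mem_image_of_mem; cases T <;> decide
    · exact absurd (st_inj ha hb e) (by decide)
  obtain ⟨z, hz, hz'⟩ := forbidden cross_mono hτ x₁ ω (b := c) hFT hgeo hne fun z hz => hω z (mem_triF.1 hz)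
  exact ⟨z, mem_triF.1 hz, hz'⟩

end Pool.Agent.MPV
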