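import Pool.Agent.MPV.Run

/-!
# The window lemma
-/

set_option autoImplicit false
set_option linter.unusedSectionVars false
set_option linter.unusedVariables false

namespace Pool.Agent.MPV

variable {V : Type} [Fintype V] [DecidableEq V]

/-- If `x` is queried when all sites but one of a monochromatic set `W` that kills `x` are known, and `x` has the same colour,
then some site of `W` is never queried. -/
theorem window {f : (V → Bool) → Prop} (hf : MonoF f) {τ : Hist V → V} (hτ : MostPivotal f τ) (x₁ : V) (ω : V → Bool)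
    {W : Finset V} {x y : V} {b : Bool} (hgeo : ∀ η : V → Bool, (∀ z ∈ W, η z = b) → ¬ piv f x η)
    (hωW : ∀ z ∈ W, ω z = b) (hωx : ω x = b) (hxW : x ∉ W) (hyW : y ∈ W) {k : ℕ} (hk1 : 1 ≤ k)
    (hkN : k < Nq f τ x₁ ω) (hxk : next τ x₁ (run τ x₁ ω k) = x)
    (hkn : ∀ z ∈ W, z ≠ y → z ∈ known (run τ x₁ ω k)) :
    ∃ z ∈ W, z ∉ known (run τ x₁ ω (Nq f τ x₁ ω)) := by
  by_contra hcon
  push Not at hcon
  have hnd : ¬ decided f (run τ x₁ ω k) := not_decided_of_lt x₁ ω hkN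
  have hagree : ∀ η, compat (run τ x₁ ω k) η → ∀ z ∈ known (run τ x₁ ω k), η z = ω z := by
    intro η hη z hz
    obtain ⟨p, hp, rfl⟩ := mem_known.1 hz
    rw [hη p hp, compat_run τ x₁ ω k p hp]
  have hyk : y ∉ known (run τ x₁ ω k) := by
    intro hyk
    have h1 := next_alive hτ x₁ ω hk1 hnd
    rw [hxk, cnt_eq_zero] at h1
    · exact lt_irrefl _ h1
    · intro η hη
      refine hgeo η fun z hz => ?_
      have hzk : z ∈ known (run τ x₁ ω k) := by
        by_cases hzy : z = y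
        · rw [hzy]; exact hyk
        · exact hkn z hz hzy
      rw [hagree η hη z hzk, hωW z hz]
  obtain ⟨h1, h2⟩ := next_spec hτ x₁ ω hk1 hnd
  rw [hxk] at h1 h2
  have hxy : x ≠ y := fun e => hxW (e ▸ hyW)
  have hdead := dom hf hxy h1 hyk (c := b) (fun η hη hηy => by
    refine hgeo η fun z hz => ?_
    by_cases hzy : z = y
    · rw [hzy]; exact hηy
    · rw [hagree η hη z (hkn z hz hzy), hωW z hz]) (h2 y hyk)
  have hd' : ∀ η, compat (run τ x₁ ω (k + 1)) η → ¬ piv f y η := by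
    intro η hη
    rw [run, compat_append] at hη
    refine hdead η hη.1 ?_
    have := hη.2
    simp only [hxk] at this
    rw [this, hωx]
  have hyk1 : y ∉ known (run τ x₁ ω (k + 1)) := by
    rw [known_run_succ, hxk, Finset.mem_insert, not_or]
    exact ⟨hxy.symm, hyk⟩
  exact dead_not_queried hτ x₁ ω (by omega) (by omega : k + 1 ≤ Nq f τ x₁ ω) (fun j hj => not_decided_of_lt x₁ ω hj)
    hyk1 hd' (hcon y hyW)

/-- Forbidden pattern: `Fl` is the flower, `T` the whole pattern. -/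
theorem forbidden {f : (V → Bool) → Prop} (hf : MonoF f) {τ : Hist V → V} (hτ : MostPivotal f τ) (x₁ : V)
    (ω : V → Bool) {T Fl : Finset V} {b : Bool} (hFT : Fl ⊆ T)
    (hgeo : ∀ z ∈ Fl, ∃ W : Finset V, ∃ y ∈ W, W ⊆ T ∧ z ∉ W ∧ (∀ w ∈ W, w ≠ y → w ∈ Fl) ∧
      ∀ η : V → Bool, (∀ w ∈ W, η w = b) → ¬ piv f z η)
    (hne : ∃ a ∈ Fl, ∃ c ∈ Fl, a ≠ c) (hω : ∀ z ∈ T, ω z = b) :
    ∃ z ∈ T, z ∉ known (run τ x₁ ω (Nq f τ x₁ ω)) := by
  classical
  by_contra hcon
  push Not at hcon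
  have ht : ∀ z : V, ∃ k, z ∈ T → k < Nq f τ x₁ ω ∧ next τ x₁ (run τ x₁ ω k) = z := by
    intro z
    by_cases hz : z ∈ T
    · obtain ⟨k, h1, h2⟩ := exists_time hτ x₁ ω (hcon z hz)
      exact ⟨k, fun _ => ⟨h1, h2⟩⟩
    · exact ⟨0, fun h => absurd h hz⟩
  choose t ht using ht
  obtain ⟨a, ha, c, hc, hac⟩ := hne
  obtain ⟨z, hz, hmax⟩ := Finset.exists_max_image Fl t ⟨a, ha⟩
  obtain ⟨htz1, htz2⟩ := ht z (hFT hz)
  have hknown : ∀ w ∈ Fl, w ≠ z → w ∈ known (run τ x₁ ω (t z)) := by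
    intro w hw hwz
    obtain ⟨h1, h2⟩ := ht w (hFT hw)
    have hlt : t w < t z := by
      refine lt_of_le_of_ne (hmax w hw) fun e => hwz ?_
      rw [← h2, e, htz2]
    have h3 : w ∈ known (run τ x₁ ω (t w + 1)) := by
      rw [known_run_succ, h2]; exact Finset.mem_insert_self _ _
    exact known_run_mono τ x₁ ω (by omega : t w + 1 ≤ t z) h3
  have hk1 : 1 ≤ t z := by
    rcases Nat.eq_zero_or_pos (t z) with h0 | h0
    · exfalso
      have hw : ∃ w ∈ Fl, w ≠ z := by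
        by_cases e : a = z
        · exact ⟨c, hc, fun e' => hac (e.trans e'.symm)⟩
        · exact ⟨a, ha, e⟩
      obtain ⟨w, hw, hwz⟩ := hw
      have := hknown w hw hwz
      rw [h0] at this
      simp [run, known] at this
    · exact h0
  obtain ⟨W, y, hyW, hWT, hzW, hWF, hg⟩ := hgeo z hz
  obtain ⟨w, hw, hw'⟩ := window hf hτ x₁ ω hg (fun w hw => hω w (hWT hw)) (hω z (hFT hz)) hzW hyW hk1 htz1 htz2
    (fun w hw hwy => hknown w (hWF w hw hwy) fun e => hzW (e ▸ hw))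
  exact hw' (hcon w (hWT hw))

end Pool.Agent.MPV
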